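import Pool.Agent.Helper17.MW.FinalA

/-! # Golod-Shafarevich presentations with few letters in each relator

`deg p r` and `GSIneq p d R` are the degree and the Golod-Shafarevich inequality of the question,
written as in the frozen statement S01935 (`Helper96/GS/Defs.lean`).  `letters r` is the set of the
letters of the reduced word of `r`, `K` a set of letters, `letters r \ K` is written `S(r)` below, and
`ldeg p K R S` is the least degree of a relator `r` with `S(r) = S`.  The set `R` of relators may be
infinite, and `G` need not be finitely presented.

The inequality of the question holds, all degrees are at least two, and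
(a) `|S(r)| ≤ 2` for all relators and `d ≥ 4 |K| + 6`, or
(b) call `r` wide if `3 ≤ |S(r)|` and `deg p r ≤ |S(r)|`; the other relators have `|S(r)| ≤ s`,
`d ≥ 4 (s + j + |K|) + 2`, and the wide ones satisfy `1 - (j + 2) t + ∑ (|S| t) ^ (ldeg S) < 0` for a `t`
between zero and one, the sum over the sets `S = S(r)`, `r` wide (no condition if there are none).

Case (a) contains the finitely presented Golod-Shafarevich groups with property (T) of Ershov (all
relators `x_i ^ p` and `[x_i, x_j, x_j]`).

Outline of the proof (files `Pool/Agent/Helper17/MW`).
* Send `x_i` to the unit `1 + X_i` of the ring of power series in noncommuting variables over `ZMod p`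
  (`Ser`).  A word of `r - 1` has at least `deg p r` letters, all letters of `r` (`Deg`).
* A finite set `C` of words is chosen such that every word of every `r - 1` has a factor in `C` and
  the number of words of length `n` without factor in `C` grows exponentially.  The Golod-Shafarevich
  inequality leaves more than `d² / 4 - d / 2` pairs of letters without relator of degree two
  (`Loc3`, `Helper89/MW/NB1`, `NB3`); the words are walks in a part of this graph, along which a letter
  is not repeated for a while (`Loc1`, `Loc2`, `Walk2`, `Nb2`).
* So there are two different words `A`, `B` of the same length all of whose products have no factor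
  in `C` (`Grow`), and two Lyndon words `U`, `V` with the same property, return words of a
  lexicographically least word (`Ret`).
* Iterated commutators have `U`, `V` as leading words (`Lead`), two more have `W = UUVUVV` and
  `W' = UUVVUV` (`Core`); a nontrivial word in these two elements has a product of `W`s and `W'`s as
  leading word (`Mag`, `Fun`), so it is not in the normal closure of `R`. -/

namespace Pool.Agent.Results.MP_75d0a7_al.FewLetters
open Pool.H96.GS Pool.MW

open Classical in
/-- Groups with a Golod-Shafarevich presentation with few letters in each relator contain a free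
group of rank two. -/
theorem result (G : Type) [Group G] (p d : ℕ) (hp : p.Prime)
    (φ : FreeGroup (Fin d) →* G) (_hφ : Function.Surjective φ) (R : Set (FreeGroup (Fin d)))
    (hR : φ.ker = Subgroup.normalClosure R) (hGS : GSIneq p d R) (h2 : ∀ r ∈ R, 2 ≤ deg p r)
    (K : Finset (Fin d))
    (h : ((∀ r ∈ R, (letters r \ K).card ≤ 2) ∧ 4 * K.card + 6 ≤ d) ∨
      ∃ (s j : ℕ) (t : ℝ), 1 ≤ s ∧ 4 * (s + j + K.card) + 2 ≤ d ∧ 0 < t ∧ t < 1 ∧
        (∀ r ∈ R, (letters r \ K).card ≤ s ∨
          (3 ≤ (letters r \ K).card ∧ deg p r ≤ (letters r \ K).card)) ∧
        1 - ((j : ℝ) + 2) * t +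
          ∑ S ∈ Finset.univ.filter (fun S : Finset (Fin d) => ∃ r ∈ R, letters r \ K = S ∧
            3 ≤ S.card ∧ deg p r ≤ S.card), ((S.card : ℝ) * t) ^ ldeg p K R S < 0) :
    ∃ f : FreeGroup (Fin 2) →* G, Function.Injective f := by
  rcases h with ⟨h, hd⟩ | ⟨s, j, t, hs, hd, ht0, ht1, h, hlt⟩
  · exact mainT hp φ R hR hGS h2 K hd h
  · exact mainN hp hs φ R hR hGS h2 K hd h t ht0 ht1 hlt

end Pool.Agent.Results.MP_75d0a7_al.FewLetters
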