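import Pool.Agent.H50GS.Sel

/-! # Finitely presented groups with multilinear relators are large

`deg p r`, `GSIneq p d R` and `FP G` are the degree, the Golod-Shafarevich inequality and the finite
presentability of the question, written as in the frozen statement S01935 (`Helper96/GS/Defs.lean`).
`Large G`: a subgroup of finite index maps onto the free group of rank two.
`Zl X l` is `[F', F'] (F')^l`, where `F'` is the commutator subgroup of the free group `F` on `X`.
`ret T` sets the letters outside `T` to one.  `killSet l r` is the set of the letters `j` such that
`r` becomes an element of `Zl` when `j` is set to one; it contains all letters whose removal kills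
`r`.  `outside l R` is the set of the relators that do not lie in `Zl`.

(1) If `1 - ∑ τ j + ∑ ∏ (j ∈ killSet r) τ j < 0` for some numbers `0 ≤ τ j ≤ 1`, the second sum over the
relators outside `Zl`, then the group is large.  For `τ = 1` this is the theorem of Baumslag and
Pride, for `τ = t < 1` it is the Golod-Shafarevich inequality with the degree of a relator replaced
by the number of the letters whose removal makes it harmless.
(2) This is the statement S01935, with the stronger conclusion that `G` is large, for all
Golod-Shafarevich presentations whose relators outside `Zl` have degree at most that number.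

Outline of the proof (files `Pool/Agent/H50GS`).
* Choose a random set `T` of letters, `j` with probability `τ j`.  The expected value of
  `|T| - #{r : killSet r ⊆ T}` is larger than one, so for some `T` it is at least two (`Sel`).  Set
  the other letters to one; the relators with `killSet r ⊄ T` fall into `Zl`.
* There remain at most `|T| - 2` other relators.  Choose a homomorphism to `ℤ` that kills them and
  is not zero on some letter `y` of `T`, and reduce it modulo a large `M`.  In the Cayley graph of
  `ℤ/M` there is a weight on the edges in a long interval, with values in `ℤ/l`, zero on the edges
  of `y`, whose totals along all paths of the remaining relators vanish (more unknowns than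
  equations, `Lin`, `BP`).
* Three far apart translates of the weight act by three generators of `ℤ/l * ℤ/l * ℤ/l`; a relator
  meets at most one of them, so it acts trivially (`Tot`, `Core50`, on top of `Helper96/GS`). -/

namespace Pool.Agent.Results.MP_75d0a7_al.MultilinearRelators
open Pool.H96.GS Pool.H50.GS

/-- Finitely presented groups whose relators satisfy the Golod-Shafarevich inequality with the
number of the letters whose removal makes the relator harmless in place of its degree are large. -/
theorem result (G : Type) [Group G] (hG : FP G) (l d : ℕ) (hl : l.Prime)
    (φ : FreeGroup (Fin d) →* G) (hφ : Function.Surjective φ) (R : Set (FreeGroup (Fin d)))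
    (hR : φ.ker = Subgroup.normalClosure R)
    (h : (∃ τ : Fin d → ℝ, (∀ j, 0 ≤ τ j ∧ τ j ≤ 1) ∧
        Summable (fun r : outside l R => ∏ j ∈ killSet l r.1, τ j) ∧
        1 - ∑ j, τ j + ∑' r : outside l R, ∏ j ∈ killSet l r.1, τ j < 0) ∨
      (∃ p : ℕ, p.Prime ∧ GSIneq p d R ∧
        ∀ r ∈ R, r ∈ Zl (Fin d) l ∨ deg p r ≤ (killSet l r).card)) :
    Large G ∧ ∃ f : FreeGroup (Fin 2) →* G, Function.Injective f := by
  have hL : Large G := by
    rcases h with ⟨τ, hτ, hs, hlt⟩ | ⟨p, -, hGS, hdeg⟩
    · exact main hG hl φ hφ R hR τ hτ hs hlt
    · exact mainGS hG hl φ hφ R hR hGS hdeg
  exact ⟨hL, hL.free⟩

end Pool.Agent.Results.MP_75d0a7_al.MultilinearRelators
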