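import Pool.Agent.Helper96.GS.Final

/-! # Finitely presented Golod-Shafarevich groups with power relators are large

`deg p r` and `GSIneq p d R` are the degree and the Golod-Shafarevich inequality of the question,
written as in the frozen statement S01935; `FP G` is its hypothesis of finite presentability.
`Large G` says that a subgroup of finite index maps onto the free group of rank two.  `blk C` is the
subgroup generated by the letters in `C`.

Case 1 is the statement S01935, with the stronger conclusion that `G` is large, for the
presentations all of whose relators are `l`-th powers, `l` a prime different from `p`, or do not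
involve a given letter; or are `l`-th powers or words in the letters of one of two complementary
blocks of letters (here the relators have degree at least two).  The set of relators may be infinite;
there are torsion Golod-Shafarevich groups with presentations of this kind (all relators are
powers), so the hypothesis that `G` is finitely presented cannot be left out.

Case 2 is the general form, with `l = p` allowed: the relators lie in the product of `[N, N]`, `N ^ l`
and the normal closure of the words of `N` in the letters of one block, where `N` is the normal closure
of any set `S` of words that satisfies the inequality for `p`.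

Outline of the proof (files `Pool/Agent/Helper96/GS`).
* Golod and Shafarevich: the algebra of `F / N` modulo the powers of the augmentation ideal has
  unbounded dimension (`Fox`, `Fil`, `Ineq`, `Growth`: Fox derivatives), which gives finite quotients
  `P` of `F / N` of unbounded order in which the blocks survive (`Quot`, `Quot2`).
* Finite presentability: finitely many relators suffice (`Fp`).
* In the Cayley graph of `P` choose three places, far apart compared with the lengths of these
  relators, such that the counting functionals (mod `l`) of these places are linearly independent on
  the kernel of `F -> P` (`Count`, `Far`, `Count2`, `Far2`).  Let the `i`-th place act by a generator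
  of the `i`-th factor of `Z/l * Z/l * Z/l`.  A relator meets at most one place, so its action is
  given by its count, which vanishes; hence `G` acts, and a subgroup of finite index of `G` maps onto a
  free group (`Act`, `Core`, `Core2`). -/

namespace Pool.Agent.Results.MP_75d0a7_al.PowerRelators
open Pool.H96.GS

/-- Finitely presented Golod-Shafarevich groups whose relators are powers or miss a letter (or stay
in one of two blocks of letters) are large, in particular they contain a free group of rank two. -/
theorem result (G : Type) [Group G] (hG : FP G) (p l d : ℕ) (hp : p.Prime) (hl : l.Prime)
    (φ : FreeGroup (Fin d) →* G) (hφ : Function.Surjective φ) (R : Set (FreeGroup (Fin d)))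
    (hR : φ.ker = Subgroup.normalClosure R)
    (h : (p ≠ l ∧ GSIneq p d R ∧
        ((∃ j : Fin d, ∀ r ∈ R, r ∈ blk {x | x ≠ j} ∨ ∃ v, r = v ^ l) ∨
          (∃ B : Set (Fin d), B.Nonempty ∧ Bᶜ.Nonempty ∧ ∀ r ∈ R,
            MonoidAlgebra.of (ZMod p) (FreeGroup (Fin d)) r - 1 ∈ M p d 2 ∧
            (r ∈ blk B ∨ r ∈ blk Bᶜ ∨ ∃ v, r = v ^ l)))) ∨
      (∃ S : Set (FreeGroup (Fin d)), GSIneq p d S ∧
        ((∃ j : Fin d, R ⊆ Zl l (Subgroup.normalClosure S) {{x | x ≠ j}}) ∨
          (∃ B : Set (Fin d), B.Nonempty ∧ Bᶜ.Nonempty ∧
            (∀ s ∈ S, MonoidAlgebra.of (ZMod p) (FreeGroup (Fin d)) s - 1 ∈ M p d 2) ∧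
            R ⊆ Zl l (Subgroup.normalClosure S) {B, Bᶜ})))) :
    Large G ∧ ∃ f : FreeGroup (Fin 2) →* G, Function.Injective f := by
  have hL : Large G := by
    rcases h with ⟨hne, hS, h⟩ | ⟨S, hS, h⟩
    · exact special hG hp hl hne φ hφ R hR hS h
    · exact general hG hp hl φ hφ R S hR hS h
  exact ⟨hL, hL.free⟩

end Pool.Agent.Results.MP_75d0a7_al.PowerRelators
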