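import Pool.Agent.Helper17.MW.FinalC

/-! # Golod-Shafarevich presentations with a regular set of leading words

`deg p r`, `GSIneq p d R` and `FP G` are the degree, the Golod-Shafarevich inequality and the finite
presentability of the question, written as in the frozen statement S01935 (`Helper96/GS/Defs.lean`).
`Ser (Fin d) (ZMod p)` is the ring of power series in the noncommuting variables `X_i`; `mag` sends
`x_i` to the unit `1 + X_i`.  `Lead f w`: `w` is the shortest and then lexicographically first word with
a nonzero coefficient in `f`.  `leadWords p R` is the set of the leading words of the elements of the
two sided ideal `rid (ZMod p) R` generated by the `r - 1`, `r ∈ R`; `spanWords p R` is the set of the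
leading words of the linear combinations of the `r - 1`.

A group with a presentation that satisfies the Golod-Shafarevich inequality contains a free group of
rank two in each of the following cases:
(1) `leadWords p R` is a regular language (recognised by a finite automaton); here the set of the
relators may be infinite and `G` need not be finitely presented;
(2) `G` is finitely presented and the leading words of the linear combinations of the `r - 1` do not
overlap: no one is a factor of another one, no proper suffix of one is a proper prefix of one
(criterion of Anick for mildness).  Then case (1) applies to a finite subset of the relators.

Outline of the proof (files `Pool/Agent/Helper17/MW`).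
* The words without factor in the set of the leading words span the quotients of the algebra of `G`
  by powers of the augmentation ideal (`Mu`, `Gb`); so the Golod-Shafarevich inequality gives many of
  them (`Gs2`).  In case (2) the leading words of the combinations of finitely many relators generate
  the set of all leading words, by the diamond lemma (`Dia`, `Cup`), so it is regular (`Reg`).
* If no state of the automaton has two loops of the same length, then the number of these words is
  polynomial in the length (`Grow`, `GrowReg`).  So there are two different words `A`, `B` of the same
  length no product of which is a leading word.
* So there are two Lyndon words `U`, `V` with the same property, return words of a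
  lexicographically least word (`RetAny`).
* Iterated commutators have `U`, `V` as leading words (`Lead`), two more have `W = UUVUVV` and
  `W' = UUVVUV` (`Core2`); a nontrivial word in these two elements has a product of `W`s and `W'`s as
  leading word (`Mag`, `Fun`), so it is not in the normal closure of `R`. -/

namespace Pool.Agent.Results.MP_75d0a7_al.RegularLeadingWords
open Pool.H96.GS Pool.MW

/-- Groups with a Golod-Shafarevich presentation whose ideal has a regular set of leading words
contain a free group of rank two. -/
theorem result (G : Type) [Group G] (p d : ℕ) [Fact p.Prime]
    (φ : FreeGroup (Fin d) →* G) (hφ : Function.Surjective φ) (R : Set (FreeGroup (Fin d)))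
    (hR : φ.ker = Subgroup.normalClosure R) (hGS : GSIneq p d R)
    (h : (leadWords p R).IsRegular ∨
      (FP G ∧ (∀ u ∈ spanWords p R, ∀ v ∈ spanWords p R, u <:+: v → u = v) ∧
        ∀ u ∈ spanWords p R, ∀ v ∈ spanWords p R, ∀ x y z : List (Fin d),
          x ≠ [] → y ≠ [] → z ≠ [] → ¬ (u = x ++ y ∧ v = y ++ z))) :
    ∃ f : FreeGroup (Fin 2) →* G, Function.Injective f := by
  rcases h with h | ⟨hG, h1, h2⟩
  · exact mainR φ R hR hGS h
  · exact mainS hG φ hφ R hR hGS h1 h2

end Pool.Agent.Results.MP_75d0a7_al.RegularLeadingWords
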